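import Mathlib
import Pool.Agent.PudOpt.Defs

set_option autoImplicit false

/-!
# Pudlák's conjectures relative to an oracle: definitions
-/

namespace Pool.Agent.Helper20.Rel

open N68a2faeb N793a5b8e N487b59b3 Pool.Agent.Helper22 Pool.Agent.PudOr Pool.Agent.PudTal
  Pool.Agent.PudOpt

/-- `(A, B)` is a disjoint pair of languages of coNP relative to `X`. -/
def DisjointCoNPo (X : Oracle) (A B : DecisionProblem) : Prop :=
  A ∈ coNPo X ∧ B ∈ coNPo X ∧ ∀ x, ¬ (A x = true ∧ B x = true)

/-- `(A, B)` is a complete disjoint coNP-pair relative to `X`. -/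
def CompleteCoPair (X : Oracle) (A B : DecisionProblem) : Prop :=
  DisjointCoNPo X A B ∧ ∀ A' B', DisjointCoNPo X A' B' →
    ∃ f : OracleProc (List Bool) (List Bool), ∀ x,
      (A' x = true → A (f.run X x) = true) ∧ (B' x = true → B (f.run X x) = true)

/-- `K` is complete for the class `C` under reductions relative to `X`. -/
def IsCompleteRel (X : Oracle) (C : DecisionComplexityClass) (K : DecisionProblem) : Prop :=
  K ∈ C ∧ ∀ A ∈ C, ReducibleRel X A K

/-- Some complete language of the class `C` has a p-optimal proof system relative to `X`. -/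
def HasPOptRel (X : Oracle) (C : DecisionComplexityClass) : Prop :=
  ∃ K, IsCompleteRel X C K ∧ ∃ h, IsPOptimalRel X K h

/-- Some complete language of the class `C` has an optimal proof system relative to `X`. -/
def HasOptRel (X : Oracle) (C : DecisionComplexityClass) : Prop :=
  ∃ K, IsCompleteRel X C K ∧ ∃ h, IsOptimalRel X K h

end Pool.Agent.Helper20.Rel
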