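import Mathlib
import Pool.Agent.Helper20.Rel.Defs
import Pool.Agent.Helper20.Cons.UnivG
import Pool.Agent.Helper49.Cons.Bind
import Pool.Agent.Helper49.Cons.Table

set_option autoImplicit false

/-!
# Functions computable in polynomial time relative to an oracle
-/

namespace Pool.Agent.Helper20.Rel

open Turing Function N487b59b3 N68a2faeb N793a5b8e Pool.Agent.Helper22
open Pool.Agent.PudOr Pool.Agent.PudTal Pool.Agent.PudOpt
open Pool.Agent.Helper20.Cons Pool.Agent.Helper49.Cons

section

variable {α β γ δ : Type} [N487b59b3 α] [N487b59b3 β] [N487b59b3 γ] [N487b59b3 δ]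

/-- `f` is computable in polynomial time relative to `X`. -/
@[fun_prop]
def RP (X : Oracle) {α β : Type} [N487b59b3 α] [N487b59b3 β] (f : α → β) : Prop :=
  ∃ M : OracleProc α β, ∀ a, M.run X a = f a

variable {X : Oracle}

theorem RP.run (M : OracleProc α β) : RP X (M.run X) := ⟨M, fun _ => rfl⟩

theorem RP.of_FP {f : α → β} (hf : FP f) : RP X f := ⟨OracleProc.ofFP f hf, fun _ => rfl⟩

@[fun_prop]
theorem RP.id : RP X fun a : α => a := RP.of_FP FP.id

@[fun_prop]
theorem RP.const (b : β) : RP X fun _ : α => b := RP.of_FP (FP.const b)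

@[fun_prop]
theorem RP.comp {g : β → γ} {f : α → β} (hg : RP X g) (hf : RP X f) : RP X fun a => g (f a) := by
  obtain ⟨M, hM⟩ := hf
  obtain ⟨N, hN⟩ := hg
  obtain ⟨K, hK⟩ := exists_comp M N
  exact ⟨K, fun a => by rw [hK, hM, hN]⟩

@[fun_prop]
theorem RP.pair {f : α → β} {g : α → γ} (hf : RP X f) (hg : RP X g) :
    RP X fun a => (f a, g a) := by
  obtain ⟨M, hM⟩ := hf
  obtain ⟨N, hN⟩ := hg
  obtain ⟨N', hN'⟩ := exists_post (Pool.Agent.Helper49.Cons.pre N (fun s : α × β => s.1) FP.fst)
    (fun s : (α × β) × γ => (s.1.2, s.2)) (by fun_prop)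
  obtain ⟨K, hK⟩ := exists_bind M N'
  exact ⟨K, fun a => by rw [hK, hN', pre_run, hM, hN]⟩

@[fun_prop]
theorem RP.fst : RP X fun p : α × β => p.1 := RP.of_FP FP.fst

@[fun_prop]
theorem RP.snd : RP X fun p : α × β => p.2 := RP.of_FP FP.snd

@[fun_prop]
theorem RP.fst' {f : α → β × γ} (hf : RP X f) : RP X fun a => (f a).1 := RP.fst.comp hf

@[fun_prop]
theorem RP.snd' {f : α → β × γ} (hf : RP X f) : RP X fun a => (f a).2 := RP.snd.comp hf

@[fun_prop]
theorem RP.cf {f : α → List Bool} (hf : RP X f) : RP X fun a => Helper22.cf (f a) :=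
  (RP.of_FP FP.cf').comp hf

@[fun_prop]
theorem RP.cs {f : α → List Bool} (hf : RP X f) : RP X fun a => Helper22.cs (f a) :=
  (RP.of_FP FP.cs').comp hf

/-- functions of two variables in FP -/
theorem RP.two {F : β → γ → δ} (hF : FP fun p : β × γ => F p.1 p.2) {f : α → β} {g : α → γ}
    (hf : RP X f) (hg : RP X g) : RP X fun a => F (f a) (g a) :=
  (RP.of_FP hF).comp (hf.pair hg)

@[fun_prop]
theorem RP.cd {f g : α → List Bool} (hf : RP X f) (hg : RP X g) :
    RP X fun a => Helper22.cd (f a) (g a) := RP.two (F := Helper22.cd) (by fun_prop) hf hg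

@[fun_prop]
theorem RP.weq {f g : α → List Bool} (hf : RP X f) (hg : RP X g) :
    RP X fun a => Helper22.weq (f a) (g a) := RP.two (F := Helper22.weq) (by fun_prop) hf hg

@[fun_prop]
theorem RP.and {f g : α → Bool} (hf : RP X f) (hg : RP X g) :
    RP X fun a => f a && g a := RP.two (F := fun b c : Bool => b && c) (by fun_prop) hf hg

@[fun_prop]
theorem RP.or {f g : α → Bool} (hf : RP X f) (hg : RP X g) :
    RP X fun a => f a || g a := RP.two (F := fun b c : Bool => b || c) (by fun_prop) hf hg

@[fun_prop]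
theorem RP.not {f : α → Bool} (hf : RP X f) : RP X fun a => !f a :=
  (RP.of_FP (f := fun b : Bool => !b) (by fun_prop)).comp hf

@[fun_prop]
theorem RP.length_le {f g : α → List Bool} (hf : RP X f) (hg : RP X g) :
    RP X fun a => decide ((f a).length ≤ (g a).length) :=
  RP.two (F := fun u v : List Bool => decide (u.length ≤ v.length)) (by fun_prop) hf hg

@[fun_prop]
theorem RP.tail {f : α → List Bool} (hf : RP X f) : RP X fun a => (f a).tail :=
  (RP.of_FP (f := fun u : List Bool => u.tail) (by fun_prop)).comp hf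

@[fun_prop]
theorem RP.headD {f : α → List Bool} (hf : RP X f) : RP X fun a => (f a).headD false :=
  (RP.of_FP (f := fun u : List Bool => u.headD false) (FP.headD FP.id _)).comp hf

@[fun_prop]
theorem RP.cons {f : α → Bool} {g : α → List Bool} (hf : RP X f) (hg : RP X g) :
    RP X fun a => f a :: g a := RP.two (F := fun b (u : List Bool) => b :: u) (by fun_prop) hf hg

theorem RP.un_poly {f : α → List Bool} (hf : RP X f) (p : Polynomial ℕ) :
    RP X fun a => un (p.eval (f a).length) :=
  (RP.of_FP (FP.un_poly (FP.id (α := List Bool)) p)).comp hf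

@[fun_prop]
theorem RP.ite {c : α → Bool} {f g : α → β} (hc : RP X c) (hf : RP X f) (hg : RP X g) :
    RP X fun a => if c a = true then f a else g a := by
  have h : FP fun p : Bool × (β × β) => if p.1 = true then p.2.1 else p.2.2 :=
    FP.ite FP.fst (by fun_prop) (by fun_prop)
  exact (RP.of_FP h).comp (hc.pair (hf.pair hg))

/-- the values of a function are polynomially bounded -/
theorem RP.bound {f : List Bool → List Bool} (hf : RP X f) :
    ∃ p : Polynomial ℕ, ∀ x, (f x).length ≤ p.eval x.length := by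
  obtain ⟨M, hM⟩ := hf
  obtain ⟨B, hB, hBm, hBle⟩ := exists_out_bound M
  obtain ⟨p, hp⟩ := exists_poly (show PB fun n => B (3 * n) from hB.comp (by fun_prop))
  refine ⟨p, fun x => ?_⟩
  have h1 := hBle X x
  rw [sz_bits, sz_bits, hM] at h1
  have h2 := hp x.length
  omega

end

variable {X : Oracle}

/-! ## NP -/

/-- languages of NP relative to `X` -/
theorem mem_NPo_iff {L : DecisionProblem} : L ∈ NPo X ↔
    ∃ (p : Polynomial ℕ) (R : List Bool × List Bool → Bool), RP X R ∧
      ∀ x, L x = true ↔ ∃ w : List Bool, w.length ≤ p.eval x.length ∧ R (x, w) = true := by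
  constructor
  · rintro ⟨p, M, h⟩
    exact ⟨p, M.run X, RP.run M, h⟩
  · rintro ⟨p, R, ⟨M, hM⟩, h⟩
    refine ⟨p, M, fun x => ?_⟩
    rw [h]
    simp only [Accepts, hM]

/-- the bound need not be sharp -/
theorem mem_NPo_of {L : DecisionProblem} {R : List Bool × List Bool → Bool} (hR : RP X R)
    (p : Polynomial ℕ) (hp : ∀ x w, R (x, w) = true → w.length ≤ p.eval x.length)
    (h : ∀ x, L x = true ↔ ∃ w : List Bool, R (x, w) = true) : L ∈ NPo X := by
  refine mem_NPo_iff.2 ⟨p, R, hR, fun x => ?_⟩
  rw [h]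
  exact exists_congr fun w => ⟨fun h' => ⟨hp x w h', h'⟩, fun h' => h'.2⟩

/-- a verifier which checks the length of the witness -/
theorem exists_verifier {L : DecisionProblem} (hL : L ∈ NPo X) :
    ∃ (p : Polynomial ℕ) (R : List Bool × List Bool → Bool), RP X R ∧
      (∀ x w, R (x, w) = true → w.length ≤ p.eval x.length) ∧
      ∀ x, L x = true ↔ ∃ w : List Bool, R (x, w) = true := by
  obtain ⟨p, R, hR, h⟩ := mem_NPo_iff.1 hL
  refine ⟨p, fun a => decide (a.2.length ≤ (un (p.eval a.1.length)).length) && R a, ?_, ?_, ?_⟩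
  · have h1 := RP.un_poly (X := X) (f := fun a : List Bool × List Bool => a.1) (by fun_prop) p
    fun_prop
  · intro x w hw
    rw [Bool.and_eq_true, decide_eq_true_eq, un_length] at hw
    exact hw.1
  · intro x
    rw [h]
    refine exists_congr fun w => ?_
    rw [Bool.and_eq_true, decide_eq_true_eq, un_length]

theorem NPo_preimage {L : DecisionProblem} (hL : L ∈ NPo X) {f : List Bool → List Bool}
    (hf : RP X f) : (fun x => L (f x) : DecisionProblem) ∈ NPo X := by
  obtain ⟨p, R, hR, hRp, h⟩ := exists_verifier hL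
  obtain ⟨q, hq⟩ := hf.bound
  refine mem_NPo_of (R := fun a => R (f a.1, a.2)) ?_ (p.comp q) (fun x w hw => ?_) fun x => h _
  · have h1 : RP X fun a : List Bool × List Bool => f a.1 := hf.comp (by fun_prop)
    exact hR.comp (h1.pair (by fun_prop))
  · rw [Polynomial.eval_comp]
    exact (hRp _ _ hw).trans (poly_mono p (hq x))

theorem coNPo_preimage {L : DecisionProblem} (hL : L ∈ coNPo X) {f : List Bool → List Bool}
    (hf : RP X f) : (fun x => L (f x) : DecisionProblem) ∈ coNPo X :=
  NPo_preimage (L := Lᶜ) hL hf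

/-- the union of two languages -/
def union (A B : DecisionProblem) : DecisionProblem := fun x => A x || B x

theorem NPo_union {A B : DecisionProblem} (hA : A ∈ NPo X) (hB : B ∈ NPo X) :
    union A B ∈ NPo X := by
  obtain ⟨p, R, hR, hRp, h⟩ := exists_verifier hA
  obtain ⟨p', R', hR', hRp', h'⟩ := exists_verifier hB
  refine mem_NPo_of (R := fun a => R a || R' a) (by fun_prop) (p + p') (fun x w hw => ?_)
    fun x => ?_
  · rw [Bool.or_eq_true] at hw
    rw [Polynomial.eval_add]
    rcases hw with hw | hw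
    · have := hRp _ _ hw; omega
    · have := hRp' _ _ hw; omega
  · simp only [union, Bool.or_eq_true, h, h', exists_or]

theorem NPo_inter {A B : DecisionProblem} (hA : A ∈ NPo X) (hB : B ∈ NPo X) :
    (fun x => A x && B x : DecisionProblem) ∈ NPo X := by
  obtain ⟨p, R, hR, hRp, h⟩ := exists_verifier hA
  obtain ⟨p', R', hR', hRp', h'⟩ := exists_verifier hB
  refine mem_NPo_iff.2 ⟨2 * p + 1 + p', fun a => R (a.1, cf a.2) && R' (a.1, cs a.2), ?_,
    fun x => ?_⟩
  · have h1 : RP X fun a : List Bool × List Bool => R (a.1, cf a.2) := hR.comp (by fun_prop)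
    have h2 : RP X fun a : List Bool × List Bool => R' (a.1, cs a.2) := hR'.comp (by fun_prop)
    exact h1.and h2
  · simp only [Bool.and_eq_true, h, h', Polynomial.eval_add, Polynomial.eval_mul,
      Polynomial.eval_one, Polynomial.eval_ofNat]
    constructor
    · rintro ⟨⟨u, hu⟩, ⟨v, hv⟩⟩
      refine ⟨cd u v, ?_, by rw [cf_cd, cs_cd]; exact ⟨hu, hv⟩⟩
      rw [cd_length]
      have h1 := hRp _ _ hu
      have h2 := hRp' _ _ hv
      omega
    · rintro ⟨u, _, hu, hv⟩
      exact ⟨⟨_, hu⟩, ⟨_, hv⟩⟩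

theorem coNPo_union {A B : DecisionProblem} (hA : A ∈ coNPo X) (hB : B ∈ coNPo X) :
    union A B ∈ coNPo X := by
  have h := NPo_inter (A := Aᶜ) (B := Bᶜ) hA hB
  have h2 : (union A B)ᶜ = (fun x => Aᶜ x && Bᶜ x : DecisionProblem) := by
    funext x
    simp [union]
  show (union A B)ᶜ ∈ NPo X
  rw [h2]
  exact h

/-! ## The universal procedures -/

/-- run of the code `cf z` on `cf (cs z)` with the bound `cs (cs z)` -/
def UW (X : Oracle) (z : List Bool) : List Bool := cRunW (cf z) (cs (cs z)) (cf (cs z)) X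

theorem UW_RP : RP X (UW X) := by
  refine ⟨Pool.Agent.Helper49.Cons.pre ConsG.runW (fun z => (cf z, (cs (cs z), cf (cs z))))
    (by fun_prop), fun z => ?_⟩
  rw [pre_run, ConsG.runW_run]
  rfl

/-- every function has a code -/
theorem exists_code_RP {α β : Type} [N487b59b3 α] [N487b59b3 β] {f : α → β} (hf : RP X f)
    (dec : List Bool → α) (hdec : FP dec) (wo : β → List Bool) (hwo : FP wo) :
    ∃ (j : List Bool) (P : Polynomial ℕ), ∀ y r : List Bool, P.eval y.length ≤ r.length →
      UW X (cd j (cd y r)) = wo (f (dec y)) := by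
  obtain ⟨M, hM⟩ := hf
  obtain ⟨j, P, hP, hPm, h⟩ := exists_codeG M dec hdec wo hwo
  obtain ⟨Q, hQ⟩ := exists_poly hP
  refine ⟨j, Q, fun y r hr => ?_⟩
  rw [UW, cf_cd, cs_cd, cf_cd, cs_cd, (h X y r ((hQ _).trans hr)).1, hM]

/-- does the coded verifier in `z = cd j (cd x (cd m r))` accept `w`, `|w| ≤ |m|`? -/
def VV (X : Oracle) (z w : List Bool) : Bool :=
  decide (w.length ≤ (cf (cs (cs z))).length) &&
    (UW X (cd (cf z) (cd (cd (cf (cs z)) w) (cs (cs (cs z)))))).headD false

theorem VV_RP : RP X fun a : List Bool × List Bool => VV X a.1 a.2 := by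
  have h1 := UW_RP (X := X)
  unfold VV
  fun_prop

theorem cf_length (z : List Bool) : (cf z).length ≤ z.length := by
  induction z using cf.induct with
  | case1 b l ih => simp only [cf, List.length_cons]; omega
  | case2 z h =>
    rw [cf]
    · simp
    · exact h

theorem VV_length {z w : List Bool} (h : VV X z w = true) : w.length ≤ z.length := by
  rw [VV, Bool.and_eq_true, decide_eq_true_eq] at h
  have h1 := cf_length (cs (cs z))
  have h2 := cs_length (cs z)
  have h3 := cs_length z
  omega

/-- every verifier has a code -/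
theorem exists_code_VV {R : List Bool × List Bool → Bool} (hR : RP X R) (p : Polynomial ℕ) :
    ∃ e : List Bool → List Bool, FP e ∧ ∀ x w, VV X (e x) w = true ↔
      w.length ≤ p.eval x.length ∧ R (x, w) = true := by
  obtain ⟨j, P, h⟩ := exists_code_RP hR (fun y => (cf y, cs y)) (by fun_prop)
    (fun b => [b]) (FP.id.cons (FP.const []))
  let Q : Polynomial ℕ := P.comp (2 * Polynomial.X + 1 + p)
  refine ⟨fun x => cd j (cd x (cd (un (p.eval x.length)) (un (Q.eval x.length)))), ?_,
    fun x w => ?_⟩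
  · have h1 : FP fun x : List Bool => un (p.eval x.length) := FP.un_poly FP.id _
    have h2 : FP fun x : List Bool => un (Q.eval x.length) := FP.un_poly FP.id _
    fun_prop
  · rw [VV, cs_cd, cs_cd, cf_cd, cf_cd, cf_cd, cs_cd, Bool.and_eq_true, decide_eq_true_eq,
      un_length]
    refine and_congr_right fun hw => ?_
    rw [h, cf_cd, cs_cd]
    · rfl
    · rw [un_length, cd_length]
      simp only [Q, Polynomial.eval_comp, Polynomial.eval_add, Polynomial.eval_mul,
        Polynomial.eval_X, Polynomial.eval_one, Polynomial.eval_ofNat]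
      exact poly_mono P (by omega)

end Pool.Agent.Helper20.Rel
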