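import Mathlib
import Pool.Agent.Helper20.Rel.Basic

set_option autoImplicit false

/-!
# Optimal proof systems relative to an oracle
-/

namespace Pool.Agent.Helper20.Rel

open Turing Function N487b59b3 N68a2faeb N793a5b8e Pool.Agent.Helper22
open Pool.Agent.PudOr Pool.Agent.PudTal Pool.Agent.PudOpt
open Pool.Agent.Helper20.Cons Pool.Agent.Helper49.Cons

variable {X : Oracle}

theorem exists_FN {g : List Bool → List Bool} (hg : RP X g) : ∃ M : FN, M.run X = g := by
  obtain ⟨M, hM⟩ := hg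
  exact ⟨M, funext hM⟩

/-- add the values of `g` to the values of the proof system `h` -/
theorem exists_add {K : DecisionProblem} {h : FN} (hK : IsProofSystemRel X K h)
    {g : List Bool → List Bool} (hg : RP X g) (hgK : ∀ x, K (g x) = true) :
    ∃ M : FN, IsProofSystemRel X K M ∧ ∀ x, M.run X (false :: x) = g x := by
  have hh := RP.run (X := X) h
  have h1 : RP X fun v : List Bool => g v.tail := hg.comp (by fun_prop)
  have h2 : RP X fun v : List Bool => h.run X v.tail := hh.comp (by fun_prop)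
  obtain ⟨M, hM⟩ := exists_FN (X := X)
    (g := fun v => if v.headD false = true then h.run X v.tail else g v.tail) (by fun_prop)
  refine ⟨M, fun y => ⟨fun hy => ?_, ?_⟩, fun x => ?_⟩
  · obtain ⟨w, hw⟩ := (hK y).1 hy
    exact ⟨true :: w, by rw [hM]; simpa using hw⟩
  · rintro ⟨w, rfl⟩
    rw [hM]
    beta_reduce
    split_ifs with h3
    · exact (hK _).2 ⟨_, rfl⟩
    · exact hgK _
  · rw [hM]
    simp

/-- A p-optimal proof system of `K` generates every sequence of members. -/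
theorem popt_simulate {K : DecisionProblem} {h : FN} (hK : IsPOptimalRel X K h)
    {g : List Bool → List Bool} (hg : RP X g) (hgK : ∀ x, K (g x) = true) :
    ∃ t : List Bool → List Bool, RP X t ∧ ∀ x, h.run X (t x) = g x := by
  obtain ⟨M, hM, hMg⟩ := exists_add hK.1 hg hgK
  obtain ⟨k, hk⟩ := hK.2 M hM
  refine ⟨fun x => k.run X (false :: x), ?_, fun x => ?_⟩
  · exact (RP.run k).comp (by fun_prop)
  · rw [hk, hMg]

theorem opt_simulate {K : DecisionProblem} {h : FN} (hK : IsOptimalRel X K h)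
    {g : List Bool → List Bool} (hg : RP X g) (hgK : ∀ x, K (g x) = true) :
    ∃ p : Polynomial ℕ, ∀ x, ∃ w : List Bool, w.length ≤ p.eval x.length ∧
      h.run X w = g x := by
  obtain ⟨M, hM, hMg⟩ := exists_add hK.1 hg hgK
  obtain ⟨p, hp⟩ := hK.2 M hM
  refine ⟨p.comp (Polynomial.X + 1), fun x => ?_⟩
  obtain ⟨w, hw, hw'⟩ := hp (false :: x)
  refine ⟨w, ?_, by rw [hw', hMg]⟩
  simpa [Polynomial.eval_comp] using hw

/-- **R6.** p-optimal proof systems are optimal. -/
theorem opt_of_popt {K : DecisionProblem} {h : FN} (hK : IsPOptimalRel X K h) :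
    IsOptimalRel X K h := by
  refine ⟨hK.1, fun g hg => ?_⟩
  obtain ⟨k, hk⟩ := hK.2 g hg
  obtain ⟨p, hp⟩ := (RP.run (X := X) k).bound
  exact ⟨p, fun w => ⟨k.run X w, hp w, hk w⟩⟩

theorem hasOptRel_of_hasPOptRel {C : DecisionComplexityClass} (h : HasPOptRel X C) :
    HasOptRel X C := by
  obtain ⟨K, hK, f, hf⟩ := h
  exact ⟨K, hK, f, opt_of_popt hf⟩

/-! ## Going down along reductions -/

/-- the proof system of `D` made from the proof system `h` of `K`, if `D` is reducible to `K`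
by `r`: the proofs are pairs of a member `y` of `D` and a proof of `r y` -/
theorem exists_down {K D : DecisionProblem} {h : FN} (hK : IsProofSystemRel X K h)
    {r : List Bool → List Bool} (hr : RP X r) (hrD : ∀ y, D y = K (r y)) {y₀ : List Bool}
    (hy₀ : D y₀ = true) :
    ∃ M : FN, IsProofSystemRel X D M ∧ ∀ y w, h.run X w = r y → M.run X (cd y w) = y := by
  have hh := RP.run (X := X) h
  have h1 : RP X fun v : List Bool => h.run X (cs v) := hh.comp (by fun_prop)
  have h2 : RP X fun v : List Bool => r (cf v) := hr.comp (by fun_prop)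
  obtain ⟨M, hM⟩ := exists_FN (X := X)
    (g := fun v => if weq (h.run X (cs v)) (r (cf v)) = true then cf v else y₀) (by fun_prop)
  have key : ∀ y w, h.run X w = r y → M.run X (cd y w) = y := by
    intro y w hw
    rw [hM]
    beta_reduce
    rw [cs_cd, cf_cd, if_pos ((weq_iff _ _).2 hw)]
  refine ⟨M, fun y => ⟨fun hy => ?_, ?_⟩, key⟩
  · rw [hrD] at hy
    obtain ⟨w, hw⟩ := (hK _).1 hy
    exact ⟨cd y w, key y w hw⟩
  · rintro ⟨v, rfl⟩
    rw [hM]
    beta_reduce
    split_ifs with h3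
    · rw [hrD, ← (weq_iff _ _).1 h3]
      exact (hK _).2 ⟨_, rfl⟩
    · exact hy₀

theorem popt_down {K D : DecisionProblem} {h : FN} (hK : IsPOptimalRel X K h)
    {r : List Bool → List Bool} (hr : RP X r) (hrD : ∀ y, D y = K (r y)) {y₀ : List Bool}
    (hy₀ : D y₀ = true) : ∃ k : FN, IsPOptimalRel X D k := by
  obtain ⟨M, hM, hMk⟩ := exists_down hK.1 hr hrD hy₀
  refine ⟨M, hM, fun g hg => ?_⟩
  have hg' := RP.run (X := X) g
  obtain ⟨t, ht, htg⟩ := popt_simulate hK (g := fun v => r (g.run X v)) (hr.comp hg')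
    fun x => by
      rw [← hrD]
      exact (hg _).2 ⟨_, rfl⟩
  obtain ⟨k, hk⟩ := exists_FN (X := X) (g := fun v => cd (g.run X v) (t v)) (by fun_prop)
  refine ⟨k, fun v => ?_⟩
  rw [hk]
  exact hMk _ _ (htg v)

theorem opt_down {K D : DecisionProblem} {h : FN} (hK : IsOptimalRel X K h)
    {r : List Bool → List Bool} (hr : RP X r) (hrD : ∀ y, D y = K (r y)) {y₀ : List Bool}
    (hy₀ : D y₀ = true) : ∃ k : FN, IsOptimalRel X D k := by
  obtain ⟨M, hM, hMk⟩ := exists_down hK.1 hr hrD hy₀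
  refine ⟨M, hM, fun g hg => ?_⟩
  have hg' := RP.run (X := X) g
  obtain ⟨p, hp⟩ := opt_simulate hK (g := fun v => r (g.run X v)) (hr.comp hg')
    fun x => by
      rw [← hrD]
      exact (hg _).2 ⟨_, rfl⟩
  obtain ⟨q, hq⟩ := hg'.bound
  refine ⟨2 * q + 1 + p, fun v => ?_⟩
  obtain ⟨w, hw, hw'⟩ := hp v
  refine ⟨cd (g.run X v) w, ?_, hMk _ _ hw'⟩
  rw [cd_length]
  simp only [Polynomial.eval_add, Polynomial.eval_mul, Polynomial.eval_one,
    Polynomial.eval_ofNat]
  have := hq v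
  omega

theorem popt_of_hasPOptRel {C : DecisionComplexityClass} (hC : HasPOptRel X C)
    {D : DecisionProblem} (hD : D ∈ C) {y : List Bool} (hy : D y = true) :
    ∃ k : FN, IsPOptimalRel X D k := by
  obtain ⟨K, hK, h, hopt⟩ := hC
  obtain ⟨r, hr⟩ := hK.2 D hD
  exact popt_down hopt (RP.run r) hr hy

theorem opt_of_hasOptRel {C : DecisionComplexityClass} (hC : HasOptRel X C)
    {D : DecisionProblem} (hD : D ∈ C) {y : List Bool} (hy : D y = true) :
    ∃ k : FN, IsOptimalRel X D k := by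
  obtain ⟨K, hK, h, hopt⟩ := hC
  obtain ⟨r, hr⟩ := hK.2 D hD
  exact opt_down hopt (RP.run r) hr hy

/-! ## Complete languages from pairs -/

/-- the pair is hard for NP ∩ coNP relative to `X` -/
def HardPairRel (X : Oracle) (B₁ B₀ : DecisionProblem) : Prop :=
  ∀ L ∈ NPo X ∩ coNPo X, ∃ f : List Bool → List Bool, RP X f ∧
    ∀ x, (L x = true → B₁ (f x) = true) ∧ (¬ L x = true → B₀ (f x) = true)

/-- a hard pair has a member -/
theorem exists_mem {B₁ B₀ : DecisionProblem} (hard : HardPairRel X B₁ B₀) :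
    ∃ y, union B₁ B₀ y = true := by
  have h0 : (fun _ => true : DecisionProblem) ∈ NPo X ∩ coNPo X := by
    constructor
    · exact mem_NPo_iff.2 ⟨0, fun _ => true, RP.const _, fun x => by simp⟩
    · exact mem_NPo_iff.2 ⟨0, fun _ => false, RP.const _, fun x => by simp⟩
  obtain ⟨f, _, hf⟩ := hard _ h0
  refine ⟨f [], ?_⟩
  rw [union, (hf []).1 rfl, Bool.true_or]

theorem complete_of_hardPair {B₁ B₀ : DecisionProblem} (hard : HardPairRel X B₁ B₀)
    {h : FN} (hopt : IsPOptimalRel X (union B₁ B₀) h)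
    (hU : (fun w => B₁ (h.run X w) : DecisionProblem) ∈ NPo X ∩ coNPo X)
    (hdisj : ∀ x, ¬ (B₁ x = true ∧ B₀ x = true)) :
    ∃ L, IsCompleteRel X (NPo X ∩ coNPo X) L := by
  refine ⟨fun w => B₁ (h.run X w), hU, fun L hL => ?_⟩
  obtain ⟨f, hf, hfL⟩ := hard L hL
  have hfU : ∀ x, union B₁ B₀ (f x) = true := by
    intro x
    rw [union, Bool.or_eq_true]
    by_cases hx : L x = true
    · exact Or.inl ((hfL x).1 hx)
    · exact Or.inr ((hfL x).2 hx)
  obtain ⟨t, ht, htf⟩ := popt_simulate hopt hf hfU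
  obtain ⟨M, hM⟩ := exists_FN ht
  refine ⟨M, fun x => ?_⟩
  rw [hM]
  show L x = B₁ (h.run X (t x))
  rw [htf, Bool.eq_iff_iff]
  constructor
  · exact (hfL x).1
  · intro hx
    by_contra h2
    exact hdisj _ ⟨hx, (hfL x).2 h2⟩

theorem compl_preimage {B₁ B₀ : DecisionProblem} (hdisj : ∀ x, ¬ (B₁ x = true ∧ B₀ x = true))
    {h : FN} (hopt : IsPOptimalRel X (union B₁ B₀) h) :
    (fun w => B₁ (h.run X w) : DecisionProblem)ᶜ = fun w => B₀ (h.run X w) := by
  funext w
  have h1 : union B₁ B₀ (h.run X w) = true := (hopt.1 _).2 ⟨_, rfl⟩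
  rw [union, Bool.or_eq_true] at h1
  have h2 := hdisj (h.run X w)
  show (!(B₁ (h.run X w))) = B₀ (h.run X w)
  cases h3 : B₁ (h.run X w) <;> cases h4 : B₀ (h.run X w) <;> simp_all

theorem complete_of_NP {B₁ B₀ : DecisionProblem} (h₁ : B₁ ∈ NPo X) (h₀ : B₀ ∈ NPo X)
    (hdisj : ∀ x, ¬ (B₁ x = true ∧ B₀ x = true)) (hard : HardPairRel X B₁ B₀) {h : FN}
    (hopt : IsPOptimalRel X (union B₁ B₀) h) :
    ∃ L, IsCompleteRel X (NPo X ∩ coNPo X) L := by
  have hh := RP.run (X := X) h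
  refine complete_of_hardPair hard hopt ⟨NPo_preimage h₁ hh, ?_⟩ hdisj
  show (fun w => B₁ (h.run X w) : DecisionProblem)ᶜ ∈ NPo X
  rw [compl_preimage hdisj hopt]
  exact NPo_preimage h₀ hh

theorem complete_of_coNP {B₁ B₀ : DecisionProblem} (h₁ : B₁ ∈ coNPo X) (h₀ : B₀ ∈ coNPo X)
    (hdisj : ∀ x, ¬ (B₁ x = true ∧ B₀ x = true)) (hard : HardPairRel X B₁ B₀) {h : FN}
    (hopt : IsPOptimalRel X (union B₁ B₀) h) :
    ∃ L, IsCompleteRel X (NPo X ∩ coNPo X) L := by
  have hh := RP.run (X := X) h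
  refine complete_of_hardPair hard hopt ⟨?_, coNPo_preimage h₁ hh⟩ hdisj
  have h2 := coNPo_preimage h₀ hh
  have h3 := compl_preimage hdisj hopt
  have h4 : (fun w => B₁ (h.run X w) : DecisionProblem) =
      (fun w => B₀ (h.run X w) : DecisionProblem)ᶜ := by
    rw [← h3, compl_compl]
  rw [h4]
  exact h2

/-- **R2.** If some complete language of NP has a p-optimal proof system and there is a complete
disjoint NP-pair, then NP ∩ coNP has a complete language. -/
theorem complete_of_NPpair (hC : HasPOptRel X (NPo X)) {B₁ B₀ : DecisionProblem}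
    (hB : CompletePair X B₁ B₀) : ∃ L, IsCompleteRel X (NPo X ∩ coNPo X) L := by
  obtain ⟨⟨h₁, h₀, hd⟩, hc⟩ := hB
  have hard : HardPairRel X B₁ B₀ := by
    intro L hL
    obtain ⟨f, hf⟩ := hc L Lᶜ ⟨hL.1, hL.2, fun x hx => by
      have h2 := hx.2
      rw [compl_true] at h2
      exact h2 hx.1⟩
    exact ⟨f.run X, RP.run f, fun x => ⟨(hf x).1, fun h => (hf x).2 (by rw [compl_true]; exact h)⟩⟩
  obtain ⟨y, hy⟩ := exists_mem hard
  obtain ⟨k, hk⟩ := popt_of_hasPOptRel hC (NPo_union h₁ h₀) hy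
  exact complete_of_NP h₁ h₀ hd hard hk

/-- **R1.** If some complete language of coNP has a p-optimal proof system and there is a
complete disjoint coNP-pair, then NP ∩ coNP has a complete language. -/
theorem complete_of_coNPpair (hC : HasPOptRel X (coNPo X)) {B₁ B₀ : DecisionProblem}
    (hB : CompleteCoPair X B₁ B₀) : ∃ L, IsCompleteRel X (NPo X ∩ coNPo X) L := by
  obtain ⟨⟨h₁, h₀, hd⟩, hc⟩ := hB
  have hard : HardPairRel X B₁ B₀ := by
    intro L hL
    obtain ⟨f, hf⟩ := hc L Lᶜ ⟨hL.2, (by show Lᶜᶜ ∈ NPo X; rw [compl_compl]; exact hL.1),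
      fun x hx => by
        have h2 := hx.2
        rw [compl_true] at h2
        exact h2 hx.1⟩
    exact ⟨f.run X, RP.run f, fun x => ⟨(hf x).1, fun h => (hf x).2 (by rw [compl_true]; exact h)⟩⟩
  obtain ⟨y, hy⟩ := exists_mem hard
  obtain ⟨k, hk⟩ := popt_of_hasPOptRel hC (coNPo_union h₁ h₀) hy
  exact complete_of_coNP h₁ h₀ hd hard hk

end Pool.Agent.Helper20.Rel
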