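import Mathlib
import Pool.Agent.Helper20.Rel.Systems

set_option autoImplicit false

/-!
# Universal problems relative to an oracle
-/

namespace Pool.Agent.Helper20.Rel

open Turing Function N487b59b3 N68a2faeb N793a5b8e Pool.Agent.Helper22
open Pool.Agent.PudOr Pool.Agent.PudTal Pool.Agent.PudOpt
open Pool.Agent.Helper20.Cons Pool.Agent.Helper49.Cons
open scoped Classical

variable {X : Oracle}

/-! ## R4: p-optimal for NP gives complete total search problems -/

/-- the coded verifier in `z` accepts some word -/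
noncomputable def DA (X : Oracle) : DecisionProblem := fun z => decide (∃ w, VV X z w = true)

theorem DA_mem : DA X ∈ NPo X := by
  refine mem_NPo_of (R := fun a => VV X a.1 a.2) VV_RP Polynomial.X (fun x w h => ?_)
    fun x => ?_
  · rw [Polynomial.eval_X]
    exact VV_length h
  · simp only [DA, decide_eq_true_eq]

theorem exists_DA_mem : ∃ z, DA X z = true := by
  obtain ⟨e, _, he⟩ := exists_code_VV (X := X) (R := fun _ => true) (RP.const _) 0
  refine ⟨e [], ?_⟩
  simp only [DA, decide_eq_true_eq]
  exact ⟨[], (he [] []).2 ⟨by simp, rfl⟩⟩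

/-- **R4.** If some complete language of NP has a p-optimal proof system, then there is a
complete total search problem. -/
theorem completeTFNP_of_popt (hC : HasPOptRel X (NPo X)) : ∃ T : TFNPo X, T.IsComplete := by
  obtain ⟨y₀, hy₀⟩ := exists_DA_mem (X := X)
  obtain ⟨h, hopt⟩ := popt_of_hasPOptRel hC DA_mem hy₀
  have hh := RP.run (X := X) h
  obtain ⟨p, hp⟩ := hh.bound
  have hR : RP X fun a : List Bool × List Bool => VV X (h.run X a.1) a.2 := by
    have h1 : RP X fun a : List Bool × List Bool => h.run X a.1 := hh.comp (by fun_prop)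
    exact (VV_RP (X := X)).comp (h1.pair (by fun_prop))
  obtain ⟨M, hM⟩ := hR
  let T : TFNPo X := ⟨M, p, fun x => by
    have h1 : DA X (h.run X x) = true := (hopt.1 _).2 ⟨_, rfl⟩
    simp only [DA, decide_eq_true_eq] at h1
    obtain ⟨w, hw⟩ := h1
    exact ⟨w, (VV_length hw).trans (hp x), by rw [hM]; exact hw⟩⟩
  refine ⟨T, fun S => ?_⟩
  obtain ⟨e, hef, he⟩ := exists_code_VV (X := X) (RP.run S.R) S.p
  obtain ⟨t, ht, hte⟩ := popt_simulate hopt (RP.of_FP hef) fun x => by
    simp only [DA, decide_eq_true_eq]
    obtain ⟨y, hy, hy'⟩ := S.total x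
    exact ⟨y, (he x y).2 ⟨hy, hy'⟩⟩
  obtain ⟨f, hf⟩ := exists_FN ht
  refine ⟨f, OracleProc.ofFP (fun a => a.2) FP.snd, fun x y _ hy => ?_⟩
  have h1 : VV X (h.run X (f.run X x)) y = true := (hM (f.run X x, y)).symm.trans hy
  rw [hf, hte, he] at h1
  exact h1

/-! ## R7: p-optimal for coNP gives complete languages of UP -/

/-- the coded verifier in `z` accepts at most one word -/
noncomputable def DU (X : Oracle) : DecisionProblem := fun z =>
  decide (∀ w w', VV X z w = true → VV X z w' = true → w = w')

theorem DU_mem : DU X ∈ coNPo X := by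
  refine mem_NPo_of (R := fun a => VV X a.1 (cf a.2) && VV X a.1 (cs a.2) &&
    !(weq (cf a.2) (cs a.2)) && weq a.2 (cd (cf a.2) (cs a.2))) ?_
    (3 * Polynomial.X + 1) (fun x w h => ?_) fun x => ?_
  · have h1 : RP X fun a : List Bool × List Bool => VV X a.1 (cf a.2) :=
      (VV_RP (X := X)).comp (f := fun a : List Bool × List Bool => (a.1, cf a.2)) (by fun_prop)
    have h2 : RP X fun a : List Bool × List Bool => VV X a.1 (cs a.2) :=
      (VV_RP (X := X)).comp (f := fun a : List Bool × List Bool => (a.1, cs a.2)) (by fun_prop)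
    fun_prop
  · simp only [Bool.and_eq_true, weq_iff] at h
    have h1 := VV_length h.1.1.1
    have h2 := VV_length h.1.1.2
    rw [h.2, cd_length]
    simp only [Polynomial.eval_add, Polynomial.eval_mul, Polynomial.eval_one,
      Polynomial.eval_ofNat, Polynomial.eval_X]
    omega
  · rw [compl_true]
    simp only [DU, decide_eq_true_eq, Bool.and_eq_true, Bool.not_eq_true', weq_iff]
    constructor
    · intro h
      push Not at h
      obtain ⟨w, w', h1, h2, h3⟩ := h
      refine ⟨cd w w', ?_⟩
      rw [cf_cd, cs_cd, Bool.eq_false_iff, Ne, weq_iff]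
      exact ⟨⟨⟨h1, h2⟩, h3⟩, rfl⟩
    · rintro ⟨v, ⟨⟨h1, h2⟩, h3⟩, _⟩ h
      rw [Bool.eq_false_iff, Ne, weq_iff] at h3
      exact h3 (h _ _ h1 h2)

theorem exists_DU_mem : ∃ z, DU X z = true := by
  obtain ⟨e, _, he⟩ := exists_code_VV (X := X) (R := fun _ => false) (RP.const _) 0
  refine ⟨e [], ?_⟩
  simp only [DU, decide_eq_true_eq]
  intro w w' h _
  have := ((he [] w).1 h).2
  simp at this

/-- **R7.** If some complete language of coNP has a p-optimal proof system, then UP has a
complete language. -/
theorem completeUP_of_popt (hC : HasPOptRel X (coNPo X)) : ∃ U, IsCompleteRel X (UPo X) U := by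
  obtain ⟨y₀, hy₀⟩ := exists_DU_mem (X := X)
  obtain ⟨h, hopt⟩ := popt_of_hasPOptRel hC DU_mem hy₀
  have hh := RP.run (X := X) h
  obtain ⟨p, hp⟩ := hh.bound
  have hR : RP X fun a : List Bool × List Bool => VV X (h.run X a.1) a.2 := by
    have h1 : RP X fun a : List Bool × List Bool => h.run X a.1 := hh.comp (by fun_prop)
    exact (VV_RP (X := X)).comp (h1.pair (by fun_prop))
  obtain ⟨M, hM⟩ := hR
  refine ⟨fun v => decide (∃ w, VV X (h.run X v) w = true), ⟨p, M, fun x => ?_,
    fun x w w' _ _ h1 h2 => ?_⟩, ?_⟩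
  · rw [decide_eq_true_eq]
    simp only [Accepts, hM]
    exact exists_congr fun w => ⟨fun h' => ⟨(VV_length h').trans (hp x), h'⟩, fun h' => h'.2⟩
  · rw [hM] at h1 h2
    have h3 : DU X (h.run X x) = true := (hopt.1 _).2 ⟨_, rfl⟩
    simp only [DU, decide_eq_true_eq] at h3
    exact h3 w w' h1 h2
  · rintro L ⟨q, N, hN, hN'⟩
    obtain ⟨e, hef, he⟩ := exists_code_VV (X := X) (RP.run N) q
    obtain ⟨t, ht, hte⟩ := popt_simulate hopt (RP.of_FP hef) fun x => by
      simp only [DU, decide_eq_true_eq, he]
      intro w w' h1 h2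
      exact hN' x w w' h1.1 h2.1 h1.2 h2.2
    obtain ⟨f, hf⟩ := exists_FN ht
    refine ⟨f, fun x => ?_⟩
    rw [Bool.eq_iff_iff, decide_eq_true_eq, hf, hte, hN]
    simp only [he, Accepts]

/-! ## R5: optimal for coNP gives complete disjoint NP-pairs -/

/-- not both coded verifiers in `z = cd z₁ z₀` accept a word -/
noncomputable def DD (X : Oracle) : DecisionProblem := fun z =>
  decide (¬ ((∃ w, VV X (cf z) w = true) ∧ ∃ w, VV X (cs z) w = true))

theorem DD_mem : DD X ∈ coNPo X := by
  have h1 : (fun z => DA X (cf z) : DecisionProblem) ∈ NPo X := NPo_preimage DA_mem (by fun_prop)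
  have h0 : (fun z => DA X (cs z) : DecisionProblem) ∈ NPo X := NPo_preimage DA_mem (by fun_prop)
  have h := NPo_inter h1 h0
  have h2 : (DD X)ᶜ = (fun z => DA X (cf z) && DA X (cs z) : DecisionProblem) := by
    funext z
    rw [Bool.eq_iff_iff, compl_true]
    simp [DD, DA]
  show (DD X)ᶜ ∈ NPo X
  rw [h2]
  exact h

theorem exists_DD_mem : ∃ z, DD X z = true := by
  obtain ⟨e, _, he⟩ := exists_code_VV (X := X) (R := fun _ => false) (RP.const _) 0
  refine ⟨cd (e []) (e []), ?_⟩
  simp only [DD, decide_eq_true_eq]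
  rintro ⟨⟨w, hw⟩, _⟩
  rw [cf_cd] at hw
  have := ((he [] w).1 hw).2
  simp at this

/-- the universal disjoint pair: in `v = cd z m`, the verifier (`cf z` or `cs z`) accepts and `z`
has a proof of length at most `|m|` -/
noncomputable def PP (X : Oracle) (h : FN) (b : Bool) : DecisionProblem := fun v =>
  decide ((∃ w, VV X (if b then cf (cf v) else cs (cf v)) w = true) ∧
    ∃ π : List Bool, π.length ≤ (cs v).length ∧ h.run X π = cf v)

theorem PP_mem (h : FN) (b : Bool) : PP X h b ∈ NPo X := by
  have h1 : (fun v => DA X (if b then cf (cf v) else cs (cf v)) : DecisionProblem) ∈ NPo X := by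
    refine NPo_preimage DA_mem (f := fun v => if b then cf (cf v) else cs (cf v)) ?_
    cases b
    · simp only [Bool.false_eq_true, if_false]; fun_prop
    · simp only [if_true]; fun_prop
  have h2 : (fun v => decide (∃ π : List Bool, π.length ≤ (cs v).length ∧ h.run X π = cf v) :
      DecisionProblem) ∈ NPo X := by
    refine mem_NPo_of (R := fun a => decide (a.2.length ≤ (cs a.1).length) &&
      weq (h.run X a.2) (cf a.1)) ?_ Polynomial.X (fun x w h => ?_) fun x => ?_
    · have h3 : RP X fun a : List Bool × List Bool => h.run X a.2 :=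
        (RP.run h).comp (by fun_prop)
      fun_prop
    · rw [Bool.and_eq_true, decide_eq_true_eq] at h
      rw [Polynomial.eval_X]
      exact h.1.trans (cs_length x)
    · simp only [decide_eq_true_eq, Bool.and_eq_true, weq_iff]
  have h3 := NPo_inter h1 h2
  have h4 : PP X h b = (fun v => DA X (if b then cf (cf v) else cs (cf v)) &&
      decide (∃ π : List Bool, π.length ≤ (cs v).length ∧ h.run X π = cf v) :
      DecisionProblem) := by
    funext v
    rw [Bool.eq_iff_iff]
    simp only [PP, DA, decide_eq_true_eq, Bool.and_eq_true]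
  rw [h4]
  exact h3

/-- **R5.** If some complete language of coNP has an optimal proof system, then there is a
complete disjoint NP-pair. -/
theorem completePair_of_opt (hC : HasOptRel X (coNPo X)) : ∃ B₁ B₀, CompletePair X B₁ B₀ := by
  obtain ⟨y₀, hy₀⟩ := exists_DD_mem (X := X)
  obtain ⟨h, hopt⟩ := opt_of_hasOptRel hC DD_mem hy₀
  refine ⟨PP X h true, PP X h false, ⟨PP_mem h true, PP_mem h false, ?_⟩, ?_⟩
  · rintro v ⟨h1, h0⟩
    simp only [PP, decide_eq_true_eq, if_true, Bool.false_eq_true, if_false] at h1 h0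
    obtain ⟨h1, π, -, hπ⟩ := h1
    have h2 : DD X (cf v) = true := (hopt.1 _).2 ⟨π, hπ⟩
    simp only [DD, decide_eq_true_eq] at h2
    exact h2 ⟨h1, h0.1⟩
  · rintro A B ⟨hA, hB, hAB⟩
    obtain ⟨p, R, hR, hRL⟩ := mem_NPo_iff.1 hA
    obtain ⟨p', R', hR', hRL'⟩ := mem_NPo_iff.1 hB
    obtain ⟨e, hef, he⟩ := exists_code_VV hR p
    obtain ⟨e', hef', he'⟩ := exists_code_VV hR' p'
    obtain ⟨q, hq⟩ := opt_simulate hopt (g := fun x => cd (e x) (e' x))
      (RP.of_FP (by fun_prop)) fun x => by
        simp only [DD, decide_eq_true_eq, cf_cd, cs_cd, he, he', ← hRL, ← hRL']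
        exact hAB x
    obtain ⟨f, hf⟩ := exists_FN (X := X)
      (g := fun x => cd (cd (e x) (e' x)) (un (q.eval x.length))) (by
        have h1 := RP.un_poly (X := X) (RP.id (α := List Bool)) q
        have h2 : RP X e := RP.of_FP hef
        have h3 : RP X e' := RP.of_FP hef'
        fun_prop)
    refine ⟨f, fun x => ⟨fun hx => ?_, fun hx => ?_⟩⟩
    · rw [hf]
      simp only [PP, decide_eq_true_eq, if_true, cf_cd, cs_cd, he, ← hRL, un_length]
      exact ⟨hx, hq x⟩
    · rw [hf]
      simp only [PP, decide_eq_true_eq, Bool.false_eq_true, if_false, cf_cd, cs_cd, he', ← hRL',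
        un_length]
      exact ⟨hx, hq x⟩

/-! ## R3: complete total search problems give complete disjoint coNP-pairs -/

/-- the bit coded in the instance `v = cd z (cd x (cd j r))`, read off the solution `y` -/
def bt (X : Oracle) (v y : List Bool) : Bool :=
  (UW X (cd (cf (cs (cs v))) (cd (cd (cf (cs v)) y) (cs (cs (cs v)))))).headD false

theorem bt_RP : RP X fun a : List Bool × List Bool => bt X a.1 a.2 := by
  have h1 := UW_RP (X := X)
  unfold bt
  fun_prop

/-- some solution of the instance `cf v` gives the answer `b` -/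
noncomputable def NN (T : TFNPo X) (b : Bool) : DecisionProblem := fun v =>
  decide (∃ y : List Bool, y.length ≤ T.p.eval (cf v).length ∧ T.R.run X (cf v, y) = true ∧
    bt X v y = b)

theorem NN_mem (T : TFNPo X) (b : Bool) : NN T b ∈ NPo X := by
  refine mem_NPo_of (R := fun a => decide (a.2.length ≤ (un (T.p.eval (cf a.1).length)).length) &&
    (T.R.run X (cf a.1, a.2) && (bt X a.1 a.2 == b))) ?_ T.p (fun x w h => ?_) fun x => ?_
  · have h1 := RP.un_poly (X := X) (f := fun a : List Bool × List Bool => cf a.1) (by fun_prop) T.p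
    have h2 : RP X fun a : List Bool × List Bool => T.R.run X (cf a.1, a.2) :=
      (RP.run T.R).comp (by fun_prop)
    have h3 : RP X fun a : List Bool × List Bool => (bt X a.1 a.2 == b) :=
      RP.two (F := fun c d : Bool => c == d) (by fun_prop) bt_RP (RP.const b)
    fun_prop
  · rw [Bool.and_eq_true, decide_eq_true_eq, un_length] at h
    exact h.1.trans (poly_mono _ (cf_length x))
  · simp only [NN, decide_eq_true_eq, Bool.and_eq_true, un_length, beq_iff_eq]

/-- **R3.** If there is a complete total search problem, then there is a complete disjoint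
coNP-pair. -/
theorem completeCoPair_of_TFNP {T : TFNPo X} (hT : T.IsComplete) :
    ∃ B₁ B₀, CompleteCoPair X B₁ B₀ := by
  refine ⟨(NN T false)ᶜ, (NN T true)ᶜ, ⟨?_, ?_, ?_⟩, ?_⟩
  · show (NN T false)ᶜᶜ ∈ NPo X
    rw [compl_compl]; exact NN_mem T false
  · show (NN T true)ᶜᶜ ∈ NPo X
    rw [compl_compl]; exact NN_mem T true
  · rintro v ⟨h1, h0⟩
    rw [compl_true] at h1 h0
    obtain ⟨y, hy, hyR⟩ := T.total (cf v)
    cases hb : bt X v y
    · exact h1 (by simp only [NN, decide_eq_true_eq]; exact ⟨y, hy, hyR, hb⟩)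
    · exact h0 (by simp only [NN, decide_eq_true_eq]; exact ⟨y, hy, hyR, hb⟩)
  · rintro A B ⟨hA, hB, hAB⟩
    -- verifiers for the complements
    obtain ⟨p, R, hR, hRp, hRL⟩ := exists_verifier (L := Aᶜ) hA
    obtain ⟨p', R', hR', hRp', hRL'⟩ := exists_verifier (L := Bᶜ) hB
    have hS : RP X fun a : List Bool × List Bool =>
        if a.2.headD false = true then R' (a.1, a.2.tail) else R (a.1, a.2.tail) := by
      have h1 : RP X fun a : List Bool × List Bool => R (a.1, a.2.tail) := hR.comp (by fun_prop)
      have h2 : RP X fun a : List Bool × List Bool => R' (a.1, a.2.tail) :=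
        hR'.comp (by fun_prop)
      fun_prop
    obtain ⟨M, hM⟩ := hS
    let S : TFNPo X := ⟨M, p + p' + 1, fun x => by
      by_cases hx : A x = true
      · have hx' : Bᶜ x = true := by
          rw [compl_true]
          exact fun h => hAB x ⟨hx, h⟩
        obtain ⟨w, hw⟩ := (hRL' x).1 hx'
        refine ⟨true :: w, ?_, ?_⟩
        · have := hRp' _ _ hw
          simp only [List.length_cons, Polynomial.eval_add, Polynomial.eval_one]; omega
        · rw [hM]
          simpa using hw
      · obtain ⟨w, hw⟩ := (hRL x).1 (by rw [compl_true]; exact hx)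
        refine ⟨false :: w, ?_, ?_⟩
        · have := hRp _ _ hw
          simp only [List.length_cons, Polynomial.eval_add, Polynomial.eval_one]; omega
        · rw [hM]
          simpa using hw⟩
    obtain ⟨f, g, hfg⟩ := hT S
    -- the code of the bit
    have hG : RP X fun a : List Bool × List Bool => [(g.run X a).headD false] := by
      have h1 := RP.run (X := X) g
      have h2 : RP X fun a : List Bool × List Bool => (g.run X a).headD false := RP.headD h1
      exact h2.cons (RP.const [])
    obtain ⟨j, P, hj⟩ := exists_code_RP hG (fun y => (cf y, cs y)) (by fun_prop) (fun u => u)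
      FP.id
    obtain ⟨q, hq⟩ := (RP.run (X := X) f).bound
    let Q : Polynomial ℕ := P.comp (2 * Polynomial.X + 1 + T.p.comp q)
    have hbt : ∀ x y : List Bool, y.length ≤ T.p.eval (f.run X x).length →
        bt X (cd (f.run X x) (cd x (cd j (un (Q.eval x.length))))) y =
          (g.run X (x, y)).headD false := by
      intro x y hy
      rw [bt, cs_cd, cs_cd, cf_cd, cf_cd, cs_cd, hj, cf_cd, cs_cd, List.headD_cons]
      rw [un_length, cd_length]
      simp only [Q, Polynomial.eval_comp, Polynomial.eval_add, Polynomial.eval_mul,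
        Polynomial.eval_X, Polynomial.eval_one, Polynomial.eval_ofNat]
      refine poly_mono P ?_
      have h1 := poly_mono T.p (hq x)
      simp only at h1
      omega
    obtain ⟨F, hF⟩ := exists_FN (X := X)
      (g := fun x => cd (f.run X x) (cd x (cd j (un (Q.eval x.length))))) (by
        have h1 := RP.un_poly (X := X) (RP.id (α := List Bool)) Q
        have h2 := RP.run (X := X) f
        fun_prop)
    refine ⟨F, fun x => ⟨fun hx => ?_, fun hx => ?_⟩⟩
    · rw [compl_true, hF]
      simp only [NN, decide_eq_true_eq, cf_cd]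
      rintro ⟨y, hy, hyR, hb⟩
      rw [hbt x y hy] at hb
      have h1 := (hfg x y hy hyR).2
      have h1' : M.run X (x, g.run X (x, y)) = true := h1
      rw [hM] at h1'
      simp only [hb, Bool.false_eq_true, if_false] at h1'
      have h2 := (hRL x).2 ⟨_, h1'⟩
      rw [compl_true] at h2
      exact h2 hx
    · rw [compl_true, hF]
      simp only [NN, decide_eq_true_eq, cf_cd]
      rintro ⟨y, hy, hyR, hb⟩
      rw [hbt x y hy] at hb
      have h1 := (hfg x y hy hyR).2
      have h1' : M.run X (x, g.run X (x, y)) = true := h1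
      rw [hM] at h1'
      simp only [hb, if_true] at h1'
      have h2 := (hRL' x).2 ⟨_, h1'⟩
      rw [compl_true] at h2
      exact h2 hx

end Pool.Agent.Helper20.Rel
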