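import Mathlib
import Pool.Agent.Helper20.Rel.Univ

set_option autoImplicit false

/-!
# Which of Pudlák's conjectures follow from the non-existence of complete languages of NP ∩ coNP
by relativizing proofs: the classification from three oracles
-/

namespace Pool.Agent.Helper20.Rel

open N68a2faeb N793a5b8e N487b59b3 Pool.Agent.Helper22 Pool.Agent.PudOr Pool.Agent.PudTal
  Pool.Agent.PudOpt

/-- names of Pudlák's conjectures -/
inductive Conj : Type
  | CON | CONN | SAT | TFNP | DisjNP | DisjCoNP | UP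
  deriving DecidableEq, Fintype

/-- the conjectures relative to the oracle `X` -/
def Conj.Holds (X : Oracle) : Conj → Prop
  | .CON => ¬ HasPOptRel X (coNPo X)
  | .CONN => ¬ HasOptRel X (coNPo X)
  | .SAT => ¬ HasPOptRel X (NPo X)
  | .TFNP => ¬ ∃ T : TFNPo X, T.IsComplete
  | .DisjNP => ¬ ∃ A B, CompletePair X A B
  | .DisjCoNP => ¬ ∃ A B, CompleteCoPair X A B
  | .UP => ¬ ∃ U, IsCompleteRel X (UPo X) U

/-- NP ∩ coNP has no complete language relative to `X` -/
def Q1 (X : Oracle) : Prop := ¬ ∃ L, IsCompleteRel X (NPo X ∩ coNPo X) L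

/-- every oracle: what the failure of the conjectures implies -/
theorem implications (X : Oracle) :
    (¬ Conj.Holds X .CON → ¬ Conj.Holds X .CONN) ∧
    (¬ Conj.Holds X .CON → ¬ Conj.Holds X .UP) ∧
    (¬ Conj.Holds X .CONN → ¬ Conj.Holds X .DisjNP) ∧
    (¬ Conj.Holds X .SAT → ¬ Conj.Holds X .TFNP) ∧
    (¬ Conj.Holds X .TFNP → ¬ Conj.Holds X .DisjCoNP) ∧
    (¬ Conj.Holds X .SAT → ¬ Conj.Holds X .DisjNP → ¬ Q1 X) ∧
    (¬ Conj.Holds X .CON → ¬ Conj.Holds X .DisjCoNP → ¬ Q1 X) := by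
  simp only [Conj.Holds, Q1, not_not]
  refine ⟨hasOptRel_of_hasPOptRel, completeUP_of_popt, completePair_of_opt,
    completeTFNP_of_popt, ?_, ?_, ?_⟩
  · rintro ⟨T, hT⟩
    exact completeCoPair_of_TFNP hT
  · rintro h ⟨A, B, hAB⟩
    exact complete_of_NPpair h hAB
  · rintro h ⟨A, B, hAB⟩
    exact complete_of_coNPpair h hAB

theorem classification
    (W1 : ∃ X, HasPOptRel X (coNPo X) ∧ Q1 X)
    (W2 : ∃ X, HasPOptRel X (NPo X) ∧ (∃ U, IsCompleteRel X (UPo X) U) ∧ Q1 X)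
    (W3 : ∃ X, (∃ T : TFNPo X, T.IsComplete) ∧ HasOptRel X (coNPo X) ∧
      (∃ U, IsCompleteRel X (UPo X) U) ∧ Q1 X) (S : Set Conj) :
    (∀ X, Q1 X → ∃ c ∈ S, c.Holds X) ↔
      (Conj.SAT ∈ S ∨ Conj.TFNP ∈ S ∨ Conj.DisjCoNP ∈ S) ∧
      (Conj.CON ∈ S ∨ Conj.CONN ∈ S ∨ Conj.DisjNP ∈ S) ∧
      (Conj.CON ∈ S ∨ Conj.SAT ∈ S) := by
  constructor
  · intro h
    refine ⟨?_, ?_, ?_⟩
    · obtain ⟨X, h1, h2⟩ := W1
      obtain ⟨i1, i2, i3, i4, i5, i6, i7⟩ := implications X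
      have c1 : ¬ Conj.Holds X .CON := fun h' => h' h1
      have c2 := i1 c1
      have c3 := i2 c1
      have c4 := i3 c2
      obtain ⟨c, hc, hcX⟩ := h X h2
      cases c <;> simp_all
    · obtain ⟨X, h1, h2, h3⟩ := W2
      obtain ⟨i1, i2, i3, i4, i5, i6, i7⟩ := implications X
      have c1 : ¬ Conj.Holds X .SAT := fun h' => h' h1
      have c2 := i4 c1
      have c3 := i5 c2
      have c4 : ¬ Conj.Holds X .UP := fun h' => h' h2
      obtain ⟨c, hc, hcX⟩ := h X h3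
      cases c <;> simp_all
    · obtain ⟨X, h1, h2, h3, h4⟩ := W3
      obtain ⟨i1, i2, i3, i4, i5, i6, i7⟩ := implications X
      have c1 : ¬ Conj.Holds X .TFNP := fun h' => h' h1
      have c2 : ¬ Conj.Holds X .CONN := fun h' => h' h2
      have c3 := i3 c2
      have c4 := i5 c1
      have c5 : ¬ Conj.Holds X .UP := fun h' => h' h3
      obtain ⟨c, hc, hcX⟩ := h X h4
      cases c <;> simp_all
  · rintro ⟨h1, h2, h3⟩ X hX
    obtain ⟨i1, i2, i3, i4, i5, i6, i7⟩ := implications X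
    by_contra hno
    push Not at hno
    rcases h3 with h3 | h3
    · -- CON fails
      have c1 := hno _ h3
      have c2 := i3 (i1 c1)
      rcases h1 with h1 | h1 | h1
      · exact i6 (hno _ h1) c2 hX
      · exact i7 c1 (i5 (hno _ h1)) hX
      · exact i7 c1 (hno _ h1) hX
    · -- SAT fails
      have c1 := hno _ h3
      rcases h2 with h2 | h2 | h2
      · exact i6 c1 (i3 (i1 (hno _ h2))) hX
      · exact i6 c1 (i3 (hno _ h2)) hX
      · exact i6 c1 (hno _ h2) hX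

end Pool.Agent.Helper20.Rel
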